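import Pool.Agent.Lib.MP_b1a3a4_al.MVS.Interfaces

/-!
# Project MVS, module CASEALG (3.4): the a-trick
-/

set_option linter.all false

namespace Pool.Agent.Lib.MP_b1a3a4_al.MVS.H49

open Finsupp

section rmul

variable {Λ R : Type} [Ring Λ] [Ring R] {X Y : Type}

/-- right multiplication of all coordinates by `c` -/
noncomputable def rmul (c : R) : (X →₀ R) →ₗ[R] (X →₀ R) :=
  Finsupp.mapRange.linearMap (LinearMap.toSpanSingleton R R c)

@[simp] lemma rmul_apply (c : R) (v : X →₀ R) (x : X) : rmul c v x = v x * c := by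
  simp [rmul]

lemma rmul_rmul (c c' : R) (v : X →₀ R) : rmul c (rmul c' v) = rmul (c' * c) v := by
  ext x; simp [mul_assoc]

lemma rmul_one (v : X →₀ R) : rmul 1 v = v := by
  ext x; simp

lemma rmul_sub (c c' : R) (v : X →₀ R) : rmul (c - c') v = rmul c v - rmul c' v := by
  ext x; simp [mul_sub]

lemma rmul_single (c : R) (x : X) (r : R) : rmul c (single x r) = single x (r * c) := by
  classical
  ext y
  simp only [rmul_apply, Finsupp.single_apply]
  split_ifs <;> simp

lemma bc_rmul (θ : Λ →+* R) (A : (X →₀ Λ) →ₗ[Λ] (Y →₀ Λ)) (c : R) (hc : ∀ x, c * θ x = θ x * c)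
    (v : X →₀ R) : bc θ A (rmul c v) = rmul c (bc θ A v) := by
  have : bc θ A ∘ₗ rmul c = rmul c ∘ₗ bc θ A := by
    apply lin_ext
    intro x
    simp only [LinearMap.comp_apply, rmul_single, bc_single, one_mul, one_smul]
    ext y
    simp [hc]
  exact LinearMap.congr_fun this v

end rmul

lemma gmap_comm {k K S : Type} [CommRing k] [Group K] [Group S] (j : K →* S) (a : S)
    (ha : ∀ κ, a * j κ = j κ * a) (x : MonoidAlgebra k K) :
    MonoidAlgebra.single a (1 : k) * gmap k j x = gmap k j x * MonoidAlgebra.single a (1 : k) := by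
  induction x using MonoidAlgebra.induction_linear with
  | zero => simp
  | add f g hf hg => simp only [map_add, mul_add, add_mul, hf, hg]
  | single s c => simp [gmap, MonoidAlgebra.single_mul_single, ha]

/-- a cycle over `R[Q]` which lifts a cycle over `R` -/
lemma exists_lift {R Q : Type} [Ring R] [Group Q] {X : ℕ → Type} (d : Dif (MonoidAlgebra R Q) X)
    (hd : IsCx d) (q : ℕ) (σ : ∀ q : ℕ, (X q →₀ MonoidAlgebra R Q) →ₗ[MonoidAlgebra R Q]
      (X (q + 1) →₀ MonoidAlgebra R Q)) (hσ : Contr d q σ) (c : X q →₀ R)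
    (hc : IsCyc (bcD (augR R Q) d) q c) :
    ∃ z, IsCyc d q z ∧ mp (augR R Q) z = c := by
  set c' : X q →₀ MonoidAlgebra R Q := mp (MonoidAlgebra.singleOneRingHom (R := R) (M := Q)) c
    with hc'
  have hcc : mp (augR R Q) c' = c := by
    ext x
    simp [hc', MonoidAlgebra.singleOneRingHom]
  match q, σ, hσ, c, hc, c', hcc with
  | 0, σ, hσ, c, hc, c', hcc => exact ⟨c', trivial, hcc⟩
  | 1, σ, hσ, c, hc, c', hcc =>
    refine ⟨c' - σ 0 (d 0 c'), ?_, ?_⟩
    · show d 0 (c' - σ 0 (d 0 c')) = 0
      rw [map_sub, hσ.1 (by norm_num), sub_self]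
    · rw [mp_sub, hcc, ← bc_mp, ← bc_mp, hcc]
      have : bc (augR R Q) (d 0) c = 0 := hc
      rw [this, map_zero, sub_zero]
  | q + 2, σ, hσ, c, hc, c', hcc =>
    refine ⟨c' - σ (q + 1) (d (q + 1) c'), ?_, ?_⟩
    · show d (q + 1) (c' - σ (q + 1) (d (q + 1) c')) = 0
      have h1 := hσ.2 q (by omega) (d (q + 1) c')
      rw [hd q, map_zero, add_zero] at h1
      rw [map_sub, h1, sub_self]
    · rw [mp_sub, hcc, ← bc_mp, ← bc_mp, hcc]
      have : bc (augR R Q) (d (q + 1)) c = 0 := hc
      rw [this, map_zero, sub_zero]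

lemma mp_aug_linComb {R Q : Type} [Ring R] [Group Q] {X Y : Type}
    (f : X → (Y →₀ MonoidAlgebra R Q)) (e : X →₀ R) :
    mp (augR R Q) (Finsupp.linearCombination R f e) =
      Finsupp.linearCombination R (fun x => mp (augR R Q) (f x)) e := by
  have hs : ∀ (r : R) (t : MonoidAlgebra R Q), augR R Q (r • t) = r * augR R Q t := by
    intro r t
    induction t using MonoidAlgebra.induction_linear with
    | zero => simp
    | add f g hf hg => simp only [smul_add, map_add, hf, hg, mul_add]
    | single s c => simp [MonoidAlgebra.smul_single]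
  induction e using Finsupp.induction_linear with
  | zero => simp
  | add v w hv hw => simp [hv, hw]
  | single x r =>
    rw [Finsupp.linearCombination_single, Finsupp.linearCombination_single]
    ext y
    simp [hs]

theorem casealg (hT : TransferStatement) (hA : AugStatement) (hS : SplitStatement)
    (hH : HtpyStatement) : CaseAlgStatement := by
  intro k K S Q R _ _ _ _ _ j π hses ι FK FS a ha hu n hE
  have hD := ((hA k K S Q R j π hses ι FK FS n).1).1 hE
  have hC := (hA k K S Q R j π hses ι FK FS n).2 hD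
  intro q hq c hc
  rcases Nat.lt_succ_iff_lt_or_eq.1 hq with h | h
  · exact hC q h c hc
  subst h
  obtain ⟨al, be, hal0, hal, -, hbe, hzb, -⟩ := hT k K S Q R j π hses ι FK FS
  have hcx : IsCx (bcD (delta ι π) FS.d) := bcD_isCx _ FS.isCx
  obtain ⟨σ, hσ⟩ := (hS (MonoidAlgebra R Q) FS.X (bcD (delta ι π) FS.d) q hcx).1 hD
  have hCD : bcD (augR R Q) (bcD (delta ι π) FS.d) = bcD ι FS.d := by
    rw [bcD_bcD, augR_delta]
  obtain ⟨z, hz, hzc⟩ := exists_lift (bcD (delta ι π) FS.d) hcx q σ hσ c (by rw [hCD]; exact hc)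
  obtain ⟨w, hw⟩ := hzb q z hz
  -- the cycle `e` of `E`
  have he : IsCyc (bcD (ι.comp (gmap k j)) FK.d) q (be q z) := by
    match q, be, hbe, z, hz with
    | 0, be, hbe, z, hz => exact trivial
    | q + 1, be, hbe, z, hz =>
      show bcD (ι.comp (gmap k j)) FK.d q (be (q + 1) z) = 0
      have h0 : bcD (delta ι π) FS.d q z = 0 := hz
      rw [hbe, h0, map_zero]
  set e := be q z with hedef
  -- `c - u e` is a boundary
  have h1 : bcD ι FS.d q (mp (augR R Q) w) =
      c - Finsupp.linearCombination R (fun y => mp ι (al q y)) e := by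
    have h2 := congrArg (mp (augR R Q)) hw
    rw [mp_sub, hzc, mp_aug_linComb] at h2
    simp only [mp_mp, augR_delta] at h2
    rw [← h2, ← hCD]
    exact bc_mp (augR R Q) (bcD (delta ι π) FS.d q) w
  -- the two chain maps over `kS`
  set A : ∀ q : ℕ, (FK.X q →₀ MonoidAlgebra k S) →ₗ[MonoidAlgebra k S]
      (FS.X q →₀ MonoidAlgebra k S) := fun q => Finsupp.linearCombination _ (al q) with hAdef
  set A' : ∀ q : ℕ, (FK.X q →₀ MonoidAlgebra k S) →ₗ[MonoidAlgebra k S]
      (FS.X q →₀ MonoidAlgebra k S) := fun q => Finsupp.linearCombination _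
        (fun y => MonoidAlgebra.single a (1 : k) • al q y) with hA'def
  have hchA : ∀ q z, FS.d q (A (q + 1) z) = A q (bcD (gmap k j) FK.d q z) := by
    intro q z
    have : FS.d q ∘ₗ A (q + 1) = A q ∘ₗ bcD (gmap k j) FK.d q := by
      apply lin_ext
      intro x
      simp only [LinearMap.comp_apply, hAdef, Finsupp.linearCombination_single, one_smul, hal,
        bcD, bc_single]
    exact LinearMap.congr_fun this z
  have hAA' : ∀ q (v : FK.X q →₀ MonoidAlgebra k K),
      A' q (mp (gmap k j) v) = MonoidAlgebra.single a (1 : k) • A q (mp (gmap k j) v) := by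
    intro q v
    induction v using Finsupp.induction_linear with
    | zero => simp
    | add v w hv hw => simp only [mp_add, map_add, hv, hw, smul_add]
    | single x r =>
      simp only [hAdef, hA'def, mp_single, Finsupp.linearCombination_single, smul_smul]
      rw [gmap_comm j a ha]
  have hchA' : ∀ q z, FS.d q (A' (q + 1) z) = A' q (bcD (gmap k j) FK.d q z) := by
    intro q z
    have : FS.d q ∘ₗ A' (q + 1) = A' q ∘ₗ bcD (gmap k j) FK.d q := by
      apply lin_ext
      intro x
      have e1 : A' (q + 1) (single x 1) = MonoidAlgebra.single a (1 : k) • al (q + 1) x := by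
        simp only [hA'def, Finsupp.linearCombination_single, one_smul]
      have e2 : bcD (gmap k j) FK.d q (single x 1) = mp (gmap k j) (FK.d q (single x 1)) := by
        simp only [bcD, bc_single, one_smul]
      rw [LinearMap.comp_apply, LinearMap.comp_apply, e1, e2, hAA', map_smul, hal]
    exact LinearMap.congr_fun this z
  have hε : ∀ z, FS.ε (A' 0 z) = FS.ε (A 0 z) := by
    intro z
    have : FS.ε ∘ₗ A' 0 = FS.ε ∘ₗ A 0 := by
      apply lin_ext
      intro x
      simp only [LinearMap.comp_apply, hAdef, hA'def, Finsupp.linearCombination_single, one_smul,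
        map_smul]
      rw [triv_smul, aug_single, one_mul]
    exact LinearMap.congr_fun this z
  obtain ⟨h, hh0, hh⟩ := hH (MonoidAlgebra k S) (Triv k S) FK.X (bcD (gmap k j) FK.d)
    (bcD_isCx _ FK.isCx) FS A' A hchA' hchA hε
  -- division by `1 - ι a`
  obtain ⟨u, hu'⟩ := hu
  set b : R := ((u⁻¹ : Rˣ) : R) with hb
  have hub : (1 - ι (MonoidAlgebra.single a 1)) * b = 1 := by
    rw [← hu', hb]; exact u.mul_inv
  have hbu : b * (1 - ι (MonoidAlgebra.single a 1)) = 1 := by
    rw [← hu', hb]; exact u.inv_mul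
  have hacomm : ∀ x, ι (MonoidAlgebra.single a 1) * (ι.comp (gmap k j)) x =
      (ι.comp (gmap k j)) x * ι (MonoidAlgebra.single a 1) := by
    intro x
    simp only [RingHom.comp_apply, ← map_mul]
    rw [gmap_comm j a ha]
  have hbcomm : ∀ x, b * (ι.comp (gmap k j)) x = (ι.comp (gmap k j)) x * b := by
    intro x
    set y := (ι.comp (gmap k j)) x with hy
    have h3 : (1 - ι (MonoidAlgebra.single a 1)) * y = y * (1 - ι (MonoidAlgebra.single a 1)) := by
      rw [sub_mul, mul_sub, hy, hacomm, one_mul, mul_one]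
    calc b * y = b * y * ((1 - ι (MonoidAlgebra.single a 1)) * b) := by rw [hub, mul_one]
      _ = b * (y * (1 - ι (MonoidAlgebra.single a 1))) * b := by simp only [mul_assoc]
      _ = b * ((1 - ι (MonoidAlgebra.single a 1)) * y) * b := by rw [h3]
      _ = b * (1 - ι (MonoidAlgebra.single a 1)) * y * b := by simp only [mul_assoc]
      _ = y * b := by rw [hbu, one_mul]
  set e' := rmul b e with he'
  have hee' : e = e' - rmul (ι (MonoidAlgebra.single a 1)) e' := by
    have h4 : rmul (1 - ι (MonoidAlgebra.single a 1)) e' = e := by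
      rw [he', rmul_rmul, hbu, rmul_one]
    rw [← h4, rmul_sub, rmul_one]
  have hcyc' : IsCyc (bcD (ι.comp (gmap k j)) FK.d) q e' := by
    rw [he']
    clear_value e
    clear he' hee' e' h1 hw hc hzc
    match q, e, he with
    | 0, e, he => exact trivial
    | q + 1, e, he =>
      show bc (ι.comp (gmap k j)) (FK.d q) (rmul b e) = 0
      have h0 : bc (ι.comp (gmap k j)) (FK.d q) e = 0 := he
      rw [bc_rmul _ _ _ hbcomm, h0, map_zero]
  -- `u ρ - u` on `e'`
  have hu1 : Finsupp.linearCombination R (fun y => mp ι (al q y)) e' = bc ι (A q) e' := by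
    have : Finsupp.linearCombination R (fun y => mp ι (al q y)) = bc ι (A q) := by
      apply lin_ext
      intro x
      simp only [hAdef, Finsupp.linearCombination_single, bc_single, one_smul]
    rw [this]
  have hu2 : Finsupp.linearCombination R (fun y => mp ι (al q y))
      (rmul (ι (MonoidAlgebra.single a 1)) e') = bc ι (A' q) e' := by
    have : Finsupp.linearCombination R (fun y => mp ι (al q y)) ∘ₗ
        rmul (ι (MonoidAlgebra.single a 1)) = bc ι (A' q) := by
      apply lin_ext
      intro x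
      simp only [LinearMap.comp_apply, rmul_single, hA'def, Finsupp.linearCombination_single,
        bc_single, one_smul, one_mul, mp_smul]
    exact LinearMap.congr_fun this e'
  have hkey : bc ι (A' q) e' - bc ι (A q) e' = bc ι (FS.d q) (bc ι (h q) e') := by
    clear_value e' e
    clear hu1 hu2 hee' he' h1 he hw hc hzc hedef hz w z hσ c hC hD hE
    match q, e', hcyc' with
    | 0, e', hcyc' =>
      have : A' 0 - A 0 = FS.d 0 ∘ₗ h 0 := by
        ext1 x; ext1
        exact hh0 _
      rw [← LinearMap.sub_apply, ← bc_sub, this, bc_comp]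
      rfl
    | q + 1, e', hcyc' =>
      have : A' (q + 1) - A (q + 1) = FS.d (q + 1) ∘ₗ h (q + 1) +
          h q ∘ₗ bcD (gmap k j) FK.d q := by
        ext1 x; ext1
        exact hh q _
      have h0 : bc (ι.comp (gmap k j)) (FK.d q) e' = 0 := hcyc'
      rw [← LinearMap.sub_apply, ← bc_sub, this, bc_add, bc_comp, bc_comp, bcD, bc_bc]
      simp only [LinearMap.add_apply, LinearMap.comp_apply, h0, map_zero, add_zero]
  refine ⟨mp (augR R Q) w - bc ι (h q) e', ?_⟩
  rw [map_sub, h1]
  have h5 : bcD ι FS.d q (bc ι (h q) e') = bc ι (A' q) e' - bc ι (A q) e' := hkey.symm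
  rw [h5, ← hu1, ← hu2, ← map_sub]
  have h6 : rmul (ι (MonoidAlgebra.single a 1)) e' - e' = -e := by
    rw [hee']; abel
  rw [h6, map_neg]
  abel

end Pool.Agent.Lib.MP_b1a3a4_al.MVS.H49
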