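import Pool.Agent.Lib.MP_b1a3a4_al.MVS.Interfaces

/-!
# Project MVS, module FPFIN (4.4): finite groups and the infinite cyclic group are of type `FP_n`
-/

set_option linter.all false

namespace Pool.Agent.Lib.MP_b1a3a4_al.MVS.H49

open Finsupp

lemma fp_of_subsingleton (R : Type) [Ring R] (n : ℕ) : ∀ (A : Type) [AddCommGroup A] [Module R A]
    [Subsingleton A], IsFP R n A := by
  induction n with
  | zero =>
    intro A _ _ _
    show Module.Finite R A
    infer_instance
  | succ n ih =>
    intro A _ _ _
    have : Subsingleton (LinearMap.ker (0 : (Fin 0 →₀ R) →ₗ[R] A)) :=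
      ⟨fun a b => Subtype.ext (Subsingleton.elim _ _)⟩
    exact ⟨0, 0, fun x => ⟨0, Subsingleton.elim _ _⟩, ih _⟩

/-! ### finite groups -/

lemma fp_of_projective (k Q : Type) [CommRing k] [Group Q] [Finite Q] (n : ℕ) :
    ∀ (A : Type) [AddCommGroup A] [Module k A] [Module (MonoidAlgebra k Q) A]
      [IsScalarTower k (MonoidAlgebra k Q) A] [Module.Finite k A] [Module.Projective k A],
      IsFP (MonoidAlgebra k Q) n A := by
  induction n with
  | zero =>
    intro A _ _ _ _ _ _
    exact Module.Finite.of_restrictScalars_finite k (MonoidAlgebra k Q) A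
  | succ n ih =>
    intro A _ _ _ _ _ _
    have hfin : Module.Finite (MonoidAlgebra k Q) A :=
      Module.Finite.of_restrictScalars_finite k (MonoidAlgebra k Q) A
    obtain ⟨r, f₀, hf₀⟩ := Module.Finite.exists_fin' (MonoidAlgebra k Q) A
    set f : (Fin r →₀ MonoidAlgebra k Q) →ₗ[MonoidAlgebra k Q] A :=
      f₀ ∘ₗ (Finsupp.linearEquivFunOnFinite (MonoidAlgebra k Q) (MonoidAlgebra k Q)
        (Fin r)).toLinearMap with hfdef
    have hf : Function.Surjective f := hf₀.comp (LinearEquiv.surjective _)
    have : Module.Free k (MonoidAlgebra k Q) :=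
      Module.Free.of_equiv (MonoidAlgebra.coeffLinearEquiv k).symm
    have : Module.Finite k (MonoidAlgebra k Q) :=
      Module.Finite.equiv (MonoidAlgebra.coeffLinearEquiv k).symm
    -- split over `k`
    obtain ⟨s, hs⟩ := Module.projective_lifting_property (R := k) (f.restrictScalars k)
      (LinearMap.id : A →ₗ[k] A) hf
    have hs' : ∀ a, f (s a) = a := fun a => LinearMap.congr_fun hs a
    let p : (Fin r →₀ MonoidAlgebra k Q) →ₗ[k] (LinearMap.ker f) :=
      { toFun := fun x => ⟨x - s (f x), by
          rw [LinearMap.mem_ker, map_sub, hs', sub_self]⟩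
        map_add' := by
          intro x y
          apply Subtype.ext
          show x + y - s (f (x + y)) = (x - s (f x)) + (y - s (f y))
          rw [map_add, map_add]; abel
        map_smul' := by
          intro c x
          apply Subtype.ext
          show c • x - s (f (c • x)) = c • (x - s (f x))
          have : f (c • x) = c • f x := (f.restrictScalars k).map_smul c x
          rw [this, map_smul, smul_sub] }
    let i : (LinearMap.ker f) →ₗ[k] (Fin r →₀ MonoidAlgebra k Q) :=
      { toFun := fun x => x.1
        map_add' := fun _ _ => rfl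
        map_smul' := fun _ _ => rfl }
    have hpi : p ∘ₗ i = LinearMap.id := by
      ext1 x
      apply Subtype.ext
      show x.1 - s (f x.1) = x.1
      rw [LinearMap.mem_ker.1 x.2, map_zero, sub_zero]
    have : Module.Projective k (LinearMap.ker f) := Module.Projective.of_split i p hpi
    have : Module.Finite k (LinearMap.ker f) :=
      Module.Finite.of_surjective p (fun x => ⟨i x, LinearMap.congr_fun hpi x⟩)
    exact ⟨r, f, hf, ih _⟩

lemma fpn_finite (k : Type) [CommRing k] (n : ℕ) (Q : Type) [Group Q] [Finite Q] :
    FPn k Q n := by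
  letI : Module k (Triv k Q) := inferInstanceAs (Module k k)
  haveI : Module.Finite k (Triv k Q) := inferInstanceAs (Module.Finite k k)
  haveI : Module.Projective k (Triv k Q) := inferInstanceAs (Module.Projective k k)
  haveI : IsScalarTower k (MonoidAlgebra k Q) (Triv k Q) := by
    constructor
    intro c a x
    change (aug k Q (c • a) * (show k from x) : k) = (c * (aug k Q a * (show k from x)) : k)
    have : aug k Q (c • a) = c * aug k Q a := by
      induction a using MonoidAlgebra.induction_linear with
      | zero => simp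
      | add f g hf hg => rw [smul_add, map_add, map_add, hf, hg, mul_add]
      | single s t => rw [MonoidAlgebra.smul_single, aug_single, aug_single, smul_eq_mul]
    rw [this, mul_assoc]
  exact fp_of_projective k Q n _

/-! ### the infinite cyclic group -/

section Z

variable (k : Type) [CommRing k]

/-- the generator minus one -/
noncomputable def tm : MonoidAlgebra k (Multiplicative ℤ) :=
  MonoidAlgebra.single (Multiplicative.ofAdd 1) 1 - 1

lemma tm_dvd (m : Multiplicative ℤ) :
    tm k ∣ MonoidAlgebra.single m (1 : k) - 1 := by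
  have h1 : ∀ n : ℕ, tm k ∣ MonoidAlgebra.single (Multiplicative.ofAdd (n : ℤ)) (1 : k) - 1 := by
    intro n
    have := sub_dvd_pow_sub_pow
      (MonoidAlgebra.single (Multiplicative.ofAdd (1 : ℤ)) (1 : k)) 1 n
    rw [one_pow, MonoidAlgebra.single_pow, one_pow] at this
    have h2 : (Multiplicative.ofAdd (1 : ℤ)) ^ n = Multiplicative.ofAdd (n : ℤ) := by
      rw [← ofAdd_nsmul]; simp
    rw [h2] at this
    exact this
  obtain ⟨n, hn | hn⟩ := Int.eq_nat_or_neg (Multiplicative.toAdd m)
  · have : m = Multiplicative.ofAdd (n : ℤ) := by rw [← hn]; rfl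
    rw [this]; exact h1 n
  · have : m = Multiplicative.ofAdd (-(n : ℤ)) := by rw [← hn]; rfl
    rw [this]
    have h3 : MonoidAlgebra.single (Multiplicative.ofAdd (-(n : ℤ))) (1 : k) - 1 =
        (MonoidAlgebra.single (Multiplicative.ofAdd (n : ℤ)) (1 : k) - 1) *
          (-MonoidAlgebra.single (Multiplicative.ofAdd (-(n : ℤ))) (1 : k)) := by
      rw [sub_mul, one_mul, mul_neg, MonoidAlgebra.single_mul_single, ← ofAdd_add, add_neg_cancel,
        mul_one, ofAdd_zero, ← MonoidAlgebra.one_def]
      abel
    rw [h3]
    exact Dvd.dvd.mul_right (h1 n) _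

lemma tm_dvd_sub_aug (x : MonoidAlgebra k (Multiplicative ℤ)) :
    tm k ∣ x - MonoidAlgebra.single 1 (aug k _ x) := by
  induction x using MonoidAlgebra.induction_linear with
  | zero => simp
  | add f g hf hg =>
    have : f + g - MonoidAlgebra.single 1 (aug k _ (f + g)) =
        (f - MonoidAlgebra.single 1 (aug k _ f)) + (g - MonoidAlgebra.single 1 (aug k _ g)) := by
      rw [map_add, MonoidAlgebra.single_add]; abel
    rw [this]; exact dvd_add hf hg
  | single m c =>
    have : MonoidAlgebra.single m c - MonoidAlgebra.single 1 (aug k _ (MonoidAlgebra.single m c)) =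
        (MonoidAlgebra.single m (1 : k) - 1) * MonoidAlgebra.single 1 c := by
      rw [aug_single, sub_mul, one_mul, MonoidAlgebra.single_mul_single, one_mul, mul_one]
    rw [this]; exact Dvd.dvd.mul_right (tm_dvd k m) _

lemma tm_inj (x : MonoidAlgebra k (Multiplicative ℤ)) (h : x * tm k = 0) : x = 0 := by
  have h1 : x * MonoidAlgebra.single (Multiplicative.ofAdd (1 : ℤ)) 1 = x := by
    rw [tm, mul_sub, mul_one, sub_eq_zero] at h
    exact h
  have h2 : ∀ m : ℤ, x.coeff (Multiplicative.ofAdd (m + 1)) = x.coeff (Multiplicative.ofAdd m) := by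
    intro m
    conv_lhs => rw [← h1]
    rw [MonoidAlgebra.coeff_mul_single_apply, mul_one]
    congr 1
    rw [← ofAdd_neg, ← ofAdd_add]
    congr 1
    ring
  have h3 : ∀ (m : ℤ) (n : ℕ), x.coeff (Multiplicative.ofAdd (m + n)) =
      x.coeff (Multiplicative.ofAdd m) := by
    intro m n
    induction n with
    | zero => simp
    | succ n ih => rw [← ih, ← h2 (m + n)]; congr 2; push_cast; ring
  by_contra hx
  obtain ⟨m, hm⟩ : ∃ m : ℤ, x.coeff (Multiplicative.ofAdd m) ≠ 0 := by
    by_contra hcon
    push Not at hcon
    apply hx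
    apply MonoidAlgebra.coeff_injective
    ext m
    exact hcon (Multiplicative.toAdd m)
  have hinf : Set.Infinite {a : Multiplicative ℤ | x.coeff a ≠ 0} := by
    apply Set.infinite_of_injective_forall_mem
      (f := fun n : ℕ => Multiplicative.ofAdd (m + n))
    · intro a b hab
      have : m + (a : ℤ) = m + (b : ℤ) := hab
      have := add_left_cancel this
      exact_mod_cast this
    · intro n
      show x.coeff (Multiplicative.ofAdd (m + n)) ≠ 0
      rw [h3]; exact hm
  apply hinf
  have : {a : Multiplicative ℤ | x.coeff a ≠ 0} = (x.coeff.support : Set (Multiplicative ℤ)) := by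
    ext a; simp
  rw [this]
  exact x.coeff.support.finite_toSet

/-- the augmentation on `R^1` -/
noncomputable def fZ : (Fin 1 →₀ MonoidAlgebra k (Multiplicative ℤ)) →ₗ[MonoidAlgebra k
    (Multiplicative ℤ)] Triv k (Multiplicative ℤ) :=
  Finsupp.linearCombination _ (fun _ => (show Triv k (Multiplicative ℤ) from (1 : k)))

lemma fZ_apply (v : Fin 1 →₀ MonoidAlgebra k (Multiplicative ℤ)) :
    (fZ k v : k) = aug k _ (v 0) := by
  rw [fZ, Finsupp.linearCombination_apply, Finsupp.sum_fintype]
  · rw [Fin.sum_univ_one, triv_smul]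
    exact mul_one (aug k _ (v 0))
  · intro i
    rw [zero_smul]

/-- the element `t - 1` of the kernel -/
noncomputable def kZ : LinearMap.ker (fZ k) :=
  ⟨single 0 (tm k), by
    rw [LinearMap.mem_ker]
    apply (fZ_apply k _).trans
    simp [tm, map_sub]
    rfl⟩

lemma kZ_gen (y : LinearMap.ker (fZ k)) :
    ∃ c : MonoidAlgebra k (Multiplicative ℤ), y = c • kZ k := by
  have h0 : aug k _ (y.1 0) = 0 := (fZ_apply k y.1).symm.trans (LinearMap.mem_ker.1 y.2)
  have h1 := tm_dvd_sub_aug k (y.1 0)
  rw [h0, MonoidAlgebra.single_zero, sub_zero] at h1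
  obtain ⟨c, hc⟩ := h1
  refine ⟨c, Subtype.ext ?_⟩
  show y.1 = c • single 0 (tm k)
  refine Finsupp.ext (fun i => ?_)
  have hi : i = 0 := Subsingleton.elim _ _
  subst hi
  rw [hc]
  simp [mul_comm]

lemma fpn_int (n : ℕ) : FPn k (Multiplicative ℤ) n := by
  have hsurj : Function.Surjective (fZ k) := by
    intro x
    refine ⟨single 0 (MonoidAlgebra.single 1 (show k from x)), ?_⟩
    apply (fZ_apply k _).trans
    simp
  match n with
  | 0 =>
    show Module.Finite (MonoidAlgebra k (Multiplicative ℤ)) (Triv k (Multiplicative ℤ))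
    exact Module.Finite.of_surjective (fZ k) hsurj
  | 1 =>
    refine ⟨1, fZ k, hsurj, ?_⟩
    show Module.Finite _ _
    refine Module.Finite.of_surjective (M := Fin 1 →₀ MonoidAlgebra k (Multiplicative ℤ))
      (Finsupp.linearCombination _ (fun _ => kZ k)) ?_
    intro y
    obtain ⟨c, hc⟩ := kZ_gen k y
    exact ⟨single 0 c, by rw [Finsupp.linearCombination_single, hc]⟩
  | n + 2 =>
    refine ⟨1, fZ k, hsurj, 1, Finsupp.linearCombination _ (fun _ => kZ k), ?_, ?_⟩
    · intro y
      obtain ⟨c, hc⟩ := kZ_gen k y
      exact ⟨single 0 c, by rw [Finsupp.linearCombination_single, hc]⟩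
    · have : Subsingleton (LinearMap.ker (Finsupp.linearCombination
          (MonoidAlgebra k (Multiplicative ℤ)) (fun _ : Fin 1 => kZ k))) := by
        constructor
        have key : ∀ v : LinearMap.ker (Finsupp.linearCombination
            (MonoidAlgebra k (Multiplicative ℤ)) (fun _ : Fin 1 => kZ k)), v = 0 := by
          intro v
          have h1 : v.1 0 • kZ k = 0 := by
            have := LinearMap.mem_ker.1 v.2
            rw [Finsupp.linearCombination_apply, Finsupp.sum_fintype] at this
            · rwa [Fin.sum_univ_one] at this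
            · intro i; rw [zero_smul]
          have h2 : v.1 0 * tm k = 0 := by
            have h3 := congrArg (fun z : LinearMap.ker (fZ k) => z.1 0) h1
            have h4 : (v.1 0 • kZ k : LinearMap.ker (fZ k)).1 0 = v.1 0 * tm k := by
              show (v.1 0 • single (0 : Fin 1) (tm k)) 0 = _
              simp
            exact h4.symm.trans h3
          have h5 := tm_inj k _ h2
          apply Subtype.ext
          refine Finsupp.ext (fun i => ?_)
          have hi : i = 0 := Subsingleton.elim _ _
          subst hi
          exact h5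
        intro a b
        rw [key a, key b]
      exact fp_of_subsingleton _ n _

end Z

theorem fpfin : FpfinStatement := by
  intro k _ n
  exact ⟨fun Q _ hQ => fpn_finite k n Q, fpn_int k n⟩

end Pool.Agent.Lib.MP_b1a3a4_al.MVS.H49
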